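import Mathlib
import Pool.Agent.TH291.EX.Fin
import Pool.Agent.TH603.EL.Sq

set_option autoImplicit false

/-!
# The effective cone of the symmetric square of a very general curve of genus `g ≥ 10`

A pointed smooth curve is given by the ring `R ⊆ ℂ((w))` of the functions which are regular outside
the point `∞` (`w` is a local parameter there); `Pole n f` says that `f` has a pole of order at most
`n` at this point.  An element `G` of `R ⊗ R` is a function on the square of the curve; the ideal of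
the diagonal is `KaehlerDifferential.ideal ℂ R`.  `Eff R n y` says that some positive multiple of the
class `n (F₁ + F₂) - y Δ` (the pullback of `n x - y δ/2`) has a nonzero section.  `BoundJ` is the
bound for all line bundles `A ⊠ A (- y Δ)`.
-/

namespace Pool.Agent.Results.MP_234a48_ag.EffectiveConeVeryGeneral

open Pool.Agent.TH549.CK.Pub Pool.Agent.TH291.EX

theorem result (g : ℕ) (hg : 9 < g) :
    ∃ R₀ : Subalgebra ℂ (LaurentSeries ℂ), IsCurve g R₀ ∧
      (∀ n y : ℕ, 0 < y → (Eff R₀ n y ↔ (1 + √g) * y < n)) ∧ BoundJ (1 + √g) R₀ ∧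
      ∀ (S : Type) [CommRing S] [IsDomain S] [Algebra ℂ S]
        (R : (S →ₐ[ℂ] ℂ) → Subalgebra ℂ (LaurentSeries ℂ)), IsFam S g R →
        (∃ φ₀, R φ₀ = R₀) →
        ∃ s : ℕ → S, (∀ j, s j ≠ 0) ∧ ∀ φ : S →ₐ[ℂ] ℂ, (∀ j, φ (s j) ≠ 0) →
          IsIntegrallyClosed (R φ) →
          (∀ n y : ℕ, 0 < y → (Eff (R φ) n y ↔ (1 + √g) * y < n)) ∧ BoundJ (1 + √g) (R φ) :=
  final (fun _ h0 hind _ _ _ hP hd hPd hm => TH603.EL.nagata hg h0 hind hP hd hPd hm) (by omega)

end Pool.Agent.Results.MP_234a48_ag.EffectiveConeVeryGeneral
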